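import Mathlib
import Pool.Agent.Helper52.NF.Asm1
import Pool.Agent.Helper52.NF.Top
import Pool.Agent.Helper10.NF.M_L1
import Pool.Agent.Helper78.NF.M_L2
import Pool.Agent.Helper47.NF.M_PAR
import Pool.Agent.Helper68.NF.M_SPL
import Pool.Agent.Helper90.NF.M_S1
import Pool.Agent.Helper95.NF.M_S0
import Pool.Agent.Helper53.NF.M_S2
import Pool.Agent.Helper7.NF.M_S3a
import Pool.Agent.Helper86.NF.M_S3b
import Pool.Agent.Helper36.NF.M_CON
import Pool.Agent.Helper75.NF.M_PB
import Pool.Agent.Helper3.NF.M_IA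
import Pool.Agent.Helper73.NF.M_IB
import Pool.Agent.Helper85.NF.M_MJ
import Pool.Agent.Helper85.NF.M_TJ
import Pool.Agent.Helper24.NF.M_XR
import Pool.Agent.Helper58.NF.M_XL
import Pool.Agent.Helper8.NF.M_HB
import Pool.Agent.Helper13.NF.M_XA
import Pool.Agent.Helper65.NF.M_MAC
import Pool.Agent.Helper32.NF.M_DIM
import Pool.Agent.Helper45.NF.M_EUL
import Pool.Agent.Helper4.NF.M_LFU
import Pool.Agent.Helper79.NF.M_LFS
import Pool.Agent.Helper44.NF.M_LFW
import Pool.Agent.Helper80.NF.M_LFP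
import Pool.Agent.Helper16.NF.M_LFC
import Pool.Agent.Helper27.NF.M_LFA
import Pool.Agent.Helper40.NF.M_GRD
import Pool.Agent.Helper64.NF.M_LIN
import Pool.Agent.Helper97.NF.M_EU
import Pool.Agent.Helper76.NF.M_RSP
import Pool.Agent.Helper87.NF.M_RSF
import Pool.Agent.Helper52.NF.M_EHP
import Pool.Agent.Helper36.NF.M_CONN
import Pool.Agent.Helper52.NF.M_SUM
import Pool.Agent.Helper33.NF.M_EVC
import Pool.Agent.Helper62.NF.M_COV
import Pool.Agent.Helper81.NF.M_NCY
import Pool.Agent.Helper53.NF.M_FCY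
import Pool.Agent.Helper22.NF.M_PG
import Pool.Agent.Helper19.NF.M_PF

/-! The gap between covering and packing of negative cycles in a plane signed graph. -/

set_option autoImplicit false

namespace Pool.Agent.Results.MP_dd34a0_co.AdditiveGap

open Finset Classical

/-- the faces of a graph embedded by a rotation system: the orbits of the face permutation `φ` -/
abbrev Face {V : Type} {G : SimpleGraph V} (φ : Equiv.Perm G.Dart) : Type :=
  Quotient (Equiv.Perm.SameCycle.setoid φ)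

/-- the dart `d` lies on the face `f` -/
def On {V : Type} {G : SimpleGraph V} (φ : Equiv.Perm G.Dart) (d : G.Dart) (f : Face φ) : Prop :=
  (Quotient.mk (Equiv.Perm.SameCycle.setoid φ) d : Face φ) = f

/-- a negative face: the sum of the signs (in `ZMod 2`) along its boundary walk is `1` -/
def NegFace {V : Type} [Fintype V] {G : SimpleGraph V} (φ : Equiv.Perm G.Dart)
    (σ : Sym2 V → ZMod 2) (f : Face φ) : Prop :=
  ∑ d ∈ Finset.univ.filter (fun d : G.Dart => On φ d f), σ d.edge = 1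

theorem negFace_iff {V : Type} [Fintype V] {G : SimpleGraph V} (φ : Equiv.Perm G.Dart)
    (σ : Sym2 V → ZMod 2) (f : Face φ) : NegFace φ σ f ↔ Pool.Agent.Helper52.NF.fs φ σ f = 1 := by
  have h : ∑ d ∈ Finset.univ.filter (fun d : G.Dart => On φ d f), σ d.edge =
      Pool.Agent.Helper52.NF.fs φ σ f := by
    unfold Pool.Agent.Helper52.NF.fs
    refine Finset.sum_congr (Finset.ext fun d => ?_) (fun _ _ => rfl)
    simp only [Finset.mem_filter, Finset.mem_univ, true_and]
    exact Iff.rfl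
  unfold NegFace
  rw [h]

/-- the faces in `F` are negative and no two of them have a common vertex -/
def DisjNeg {V : Type} [Fintype V] {G : SimpleGraph V} (φ : Equiv.Perm G.Dart)
    (σ : Sym2 V → ZMod 2) (F : Finset (Face φ)) : Prop :=
  (∀ f ∈ F, NegFace φ σ f) ∧
  ∀ f ∈ F, ∀ g ∈ F, f ≠ g → ∀ d d' : G.Dart, On φ d f → On φ d' g → d.fst ≠ d'.fst

/-- Let `G` be a connected finite simple graph embedded in the sphere, given by a rotation system
`rot` with face permutation `φ` and Euler's formula, with a sign on every edge. There are `k`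
pairwise vertex-disjoint negative cycles, a set `S` of vertices meeting every negative cycle, and a
set `F₀` of pairwise vertex-disjoint negative faces, such that `|S| ≤ k + 4 |F₀| - 1` and
`2 |S| ≤ 2 k + (t - 2)`, `t` the number of negative faces, and every set of pairwise
vertex-disjoint negative faces has at most `k` members. -/
theorem result (V : Type) [Fintype V] (G : SimpleGraph V) (σ : Sym2 V → ZMod 2)
    (hG : G.Connected) (rot φ : Equiv.Perm G.Dart)
    (hrot : ∀ d, (rot d).fst = d.fst)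
    (htr : ∀ d d' : G.Dart, d.fst = d'.fst → rot.SameCycle d d')
    (hφ : ∀ d, φ d = rot d.symm)
    (hE : Fintype.card V + Nat.card (Face φ) = Nat.card G.edgeSet + 2) :
    ∃ (k : ℕ) (b : Fin k → V) (C : ∀ i : Fin k, G.Walk (b i) (b i)),
      (∀ i : Fin k, (C i).IsCycle ∧ ((C i).edges.map σ).sum = 1) ∧
      (∀ i j : Fin k, i ≠ j → ∀ x ∈ (C i).support, x ∉ (C j).support) ∧
      (∀ F₁ : Finset (Face φ), DisjNeg φ σ F₁ → F₁.card ≤ k) ∧
      ∃ (S : Finset V) (F₀ : Finset (Face φ)),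
        (∀ (v : V) (c : G.Walk v v), c.IsCycle → (c.edges.map σ).sum = 1 →
          ∃ x ∈ S, x ∈ c.support) ∧
        DisjNeg φ σ F₀ ∧
        S.card ≤ k + 4 * F₀.card - 1 ∧
        2 * S.card ≤ 2 * k + (Nat.card {f : Face φ // NegFace φ σ f} - 2) := by
  have hL1 := Pool.Agent.Helper10.NF.hL1
  have hS0 := Pool.Agent.Helper95.NF.hS0
  have hSEB := Pool.Agent.Helper52.NF.hSEB Pool.Agent.Helper90.NF.hS1
    (Pool.Agent.Helper53.NF.hS2 (Pool.Agent.Helper78.NF.hL2 hL1) hS0)
    (Pool.Agent.Helper7.NF.hS3a hL1 Pool.Agent.Helper47.NF.hPAR)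
    (Pool.Agent.Helper86.NF.hS3b hL1 (Pool.Agent.Helper68.NF.hSPL hL1) hS0)
  have hPB := Pool.Agent.Helper75.NF.hPB
  have hIND := Pool.Agent.Helper52.NF.hIND hSEB Pool.Agent.Helper36.NF.hCON
    (Pool.Agent.Helper3.NF.hIA hPB) (Pool.Agent.Helper73.NF.hIB hPB)
  have hXA := Pool.Agent.Helper13.NF.hXA Pool.Agent.Helper24.NF.hXR Pool.Agent.Helper85.NF.hMJ hIND
    Pool.Agent.Helper58.NF.hXL Pool.Agent.Helper8.NF.hHB
  have hLFS := Pool.Agent.Helper79.NF.hLFS
  have hLFA := Pool.Agent.Helper27.NF.hLFA (Pool.Agent.Helper16.NF.hLFC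
    Pool.Agent.Helper4.NF.hLFU hLFS (Pool.Agent.Helper44.NF.hLFW hLFS)
    Pool.Agent.Helper80.NF.hLFP)
  have hLIN := Pool.Agent.Helper64.NF.hLIN
  have hEHP := Pool.Agent.Helper52.NF.EHPcopy.hEHP
    (Pool.Agent.Helper45.NF.hEUL Pool.Agent.Helper65.NF.hMAC Pool.Agent.Helper32.NF.hDIM)
    (Pool.Agent.Helper87.NF.hRSF (Pool.Agent.Helper76.NF.hRSP hLIN))
  have hCOV := Pool.Agent.Helper62.NF.hCOV (Pool.Agent.Helper97.NF.hEU hLIN)
    Pool.Agent.Helper33.NF.hEVC
  have hPG := Pool.Agent.Helper22.NF.hPG (Pool.Agent.Helper53.NF.hFCY Pool.Agent.Helper81.NF.hNCY)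
  have hPF := Pool.Agent.Helper19.NF.hPF hPG
  obtain ⟨k, ⟨b, C, hC, hdis⟩, hmax, S, F₀, hS, hF₀, hFd, h1, h2⟩ :=
    Pool.Agent.Helper52.NF.gap hXA Pool.Agent.Helper85.NF.hTJ Pool.Agent.Helper36.NF.hCONN
      Pool.Agent.Helper52.NF.hSUM hPG hPF hCOV Pool.Agent.Helper40.NF.hGRD hLFA hEHP
      V G rot φ ⟨hG, hrot, htr, hφ, hE⟩ σ
  refine ⟨k, b, C, hC, hdis, ?_, S, F₀, hS,
    ⟨fun f hf => (negFace_iff φ σ f).2 (hF₀ f hf), ?_⟩, h1, ?_⟩
  · rintro F₁ ⟨h3, h4⟩
    refine hmax F₁ (fun f hf => (negFace_iff φ σ f).1 (h3 f hf)) ?_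
    rintro f hf g hg hfg z ⟨⟨d, hd, hdz⟩, ⟨d', hd', hdz'⟩⟩
    exact h4 f hf g hg hfg d d' hd hd' (hdz.trans hdz'.symm)
  · intro f hf g hg hfg d d' hd hd' hdd
    exact hFd f hf g hg hfg d.fst ⟨⟨d, hd, rfl⟩, ⟨d', hd', hdd.symm⟩⟩
  · have hcard : Nat.card {f : Face φ // NegFace φ σ f} =
        (Finset.univ.filter (fun f : Face φ => Pool.Agent.Helper52.NF.fs φ σ f = 1)).card := by
      rw [Nat.card_eq_fintype_card, Fintype.card_subtype]
      refine congrArg Finset.card (Finset.ext fun f => ?_)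
      simp only [Finset.mem_filter, Finset.mem_univ, true_and]
      exact negFace_iff φ σ f
    rw [hcard]
    exact h2

end Pool.Agent.Results.MP_dd34a0_co.AdditiveGap
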