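import Mathlib
import Pool.Agent.Helper16.OddPack.Transfer
import Pool.Agent.Helper16.OddPack.Topo

set_option autoImplicit false

namespace Pool.Agent.Results.MP_dd34a0_co.PackThird

/-- For every finite simple planar graph with edge signs there are `k` pairwise vertex-disjoint
negative cycles and a set of at most `3 k` vertices that meets every negative cycle. -/
theorem result :
    ∀ (V : Type) [Fintype V] (G : SimpleGraph V) (σ : Sym2 V → ZMod 2),
      (∃ f : V → ℝ × ℝ, Function.Injective f ∧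
        ∃ γ : ∀ u v : V, Path (f u) (f v),
          (∀ u v : V, G.Adj u v → Function.Injective ⇑(γ u v)) ∧
          (∀ u v : V, G.Adj u v → ∀ t : unitInterval, (t : ℝ) ∈ Set.Ioo (0 : ℝ) 1 →
              ∀ w : V, γ u v t ≠ f w) ∧
          (∀ u v u' v' : V, G.Adj u v → G.Adj u' v' → s(u, v) ≠ s(u', v') →
              ∀ t t' : unitInterval, (t : ℝ) ∈ Set.Ioo (0 : ℝ) 1 →
                (t' : ℝ) ∈ Set.Ioo (0 : ℝ) 1 → γ u v t ≠ γ u' v' t')) →
      ∃ (k : ℕ) (b : Fin k → V) (C : ∀ i : Fin k, G.Walk (b i) (b i)),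
        (∀ i : Fin k, (C i).IsCycle ∧ ((C i).edges.map σ).sum = 1) ∧
        (∀ i j : Fin k, i ≠ j → ∀ x ∈ (C i).support, x ∉ (C j).support) ∧
        ∃ S : Finset V, S.card ≤ 3 * k ∧
          ∀ (v : V) (c : G.Walk v v), c.IsCycle → (c.edges.map σ).sum = 1 →
            ∃ x ∈ S, x ∈ c.support := by
  intro V _ G σ h
  exact Pool.Agent.Helper16.OddPack.negCycle_pack G σ
    (Pool.Agent.Helper16.OddPack.gridMinor_of_topPlanar V G h)

end Pool.Agent.Results.MP_dd34a0_co.PackThird
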