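import Mathlib
import Pool.Agent.Helper16.OddPack.TwTransfer

set_option autoImplicit false

namespace Pool.Agent.Results.MP_dd34a0_co.TreewidthThree

/-- For every finite simple graph `G` with edge signs that is a subgraph of a graph `H` with a
perfect elimination ordering in which each vertex has at most three later neighbours (that is,
`G` has treewidth at most three), there are `k` pairwise vertex-disjoint negative cycles and a
set of at most `2 k` vertices that meets every negative cycle. -/
theorem result :
    ∀ (V : Type) [Finite V] (G H : SimpleGraph V) (σ : Sym2 V → ZMod 2) (r : V → ℕ),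
      Function.Injective r → G ≤ H →
      (∀ v, {w | H.Adj v w ∧ r v < r w}.ncard ≤ 3) →
      (∀ v w w', H.Adj v w → H.Adj v w' → r v < r w → r v < r w' → w ≠ w' → H.Adj w w') →
      ∃ (k : ℕ) (b : Fin k → V) (C : ∀ i : Fin k, G.Walk (b i) (b i)),
        (∀ i : Fin k, (C i).IsCycle ∧ ((C i).edges.map σ).sum = 1) ∧
        (∀ i j : Fin k, i ≠ j → ∀ x ∈ (C i).support, x ∉ (C j).support) ∧
        ∃ S : Finset V, S.card ≤ 2 * k ∧
          ∀ (v : V) (c : G.Walk v v), c.IsCycle → (c.edges.map σ).sum = 1 →
            ∃ x ∈ S, x ∈ c.support := by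
  intro V _ G H σ r hr hGH h3 hch
  exact Pool.Agent.Helper16.OddPack.negCycle_tw3 G H σ r hr hGH h3 hch

end Pool.Agent.Results.MP_dd34a0_co.TreewidthThree
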